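import Mathlib

/-!
# A common net of two boxes whose creases are independent and do not cross

We give a polyomino `P` with `96` cells (drawn below, the lower left corner is the cell `(0, 0)`)
which folds onto the box `1 × 6 × 6` and onto the cube `4 × 4 × 4`, such that no unit edge is a
crease of both foldings and at no grid vertex a crease of one folding passes straight through and a
crease of the other folding passes straight through in the perpendicular direction.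

```
....##..........
.....#..........
.....####.......
...#####...#....
...#..#..#.##.##
......####..###.
....##########..
.##.#######.###.
.##..######..#..
..##########....
.###..####......
##.##.#..#.##...
....#...####....
.......####.....
........#.##....
...........#....
```

The polyomino is simply connected: it is edge-connected, no two of its cells touch only at a
corner, and its complement in the grid is edge-connected.
-/

set_option autoImplicit false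
set_option maxRecDepth 100000

namespace Pool.Agent.Results.MP_40ce5a_co.IndependentCreases

/-! ## Definitions -/

/-- The cell `(x, y)` stands for the unit square `[x, x + 1] × [y, y + 1]` of the grid. -/
abbrev Cell := ℤ × ℤ

/-- Lattice points and lattice vectors in space. -/
abbrev Vec := ℤ × ℤ × ℤ

/-- Two cells are adjacent if they have a common unit edge. -/
def Adjacent (c d : Cell) : Prop :=
  (d.2 = c.2 ∧ (d.1 = c.1 + 1 ∨ c.1 = d.1 + 1)) ∨ (d.1 = c.1 ∧ (d.2 = c.2 + 1 ∨ c.2 = d.2 + 1))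

/-- Any two cells of `S` are joined by a path of cells of `S` in which consecutive cells are
adjacent. -/
def EdgeConnected (S : Set Cell) : Prop :=
  ∀ c ∈ S, ∀ d ∈ S, Relation.ReflTransGen (fun c d => c ∈ S ∧ d ∈ S ∧ Adjacent c d) c d

/-- `P` is a (simply connected) polyomino: it is nonempty and edge-connected, two cells of `P`
which touch at a corner only are both adjacent to a third cell of `P`, and the complement of `P` is
edge-connected.  So the union of the squares of `P` is a simple polygon (without holes). -/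
def IsPolyomino (P : Finset Cell) : Prop :=
  P.Nonempty ∧ EdgeConnected (P : Set Cell) ∧
  (∀ x y : ℤ, (x, y) ∈ P → (x + 1, y + 1) ∈ P → (x + 1, y) ∈ P ∨ (x, y + 1) ∈ P) ∧
  (∀ x y : ℤ, (x + 1, y) ∈ P → (x, y + 1) ∈ P → (x, y) ∈ P ∨ (x + 1, y + 1) ∈ P) ∧
  EdgeConnected {c | c ∉ P}

/-- A placement of the unit square `[x, x + 1] × [y, y + 1]` in space: the point
`(x + s, y + t)` is placed at `p + s u + t v`. -/
structure Placement where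
  /-- the position of the lower left corner `(x, y)` -/
  p : Vec
  /-- the image of the unit vector `(1, 0)` -/
  u : Vec
  /-- the image of the unit vector `(0, 1)` -/
  v : Vec
  deriving DecidableEq

/-- The six lattice vectors of length one. -/
def unitVectors : List Vec :=
  [(1, 0, 0), (-1, 0, 0), (0, 1, 0), (0, -1, 0), (0, 0, 1), (0, 0, -1)]

/-- The placement is isometric: `u` and `v` are orthogonal unit vectors. -/
def Placement.Isometric (t : Placement) : Prop :=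
  t.u ∈ unitVectors ∧ t.v ∈ unitVectors ∧ t.v ≠ t.u ∧ t.v ≠ -t.u

/-- The four corners of the placed unit square. -/
def Placement.corners (t : Placement) : Multiset Vec :=
  {t.p, t.p + t.u, t.p + t.v, t.p + t.u + t.v}

/-- `s` is (the set of corners of) one of the unit squares into which the surface of the box
`[0, a] × [0, b] × [0, c]` is divided by the grid. -/
def IsSurfaceSquare (a b c : ℕ) (s : Multiset Vec) : Prop :=
  (∃ i j k : ℤ, 0 ≤ i ∧ i < a ∧ 0 ≤ j ∧ j < b ∧ (k = 0 ∨ k = c) ∧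
    s = {(i, j, k), (i + 1, j, k), (i, j + 1, k), (i + 1, j + 1, k)}) ∨
  (∃ i j k : ℤ, 0 ≤ i ∧ i < a ∧ 0 ≤ k ∧ k < c ∧ (j = 0 ∨ j = b) ∧
    s = {(i, j, k), (i + 1, j, k), (i, j, k + 1), (i + 1, j, k + 1)}) ∨
  (∃ i j k : ℤ, 0 ≤ j ∧ j < b ∧ 0 ≤ k ∧ k < c ∧ (i = 0 ∨ i = a) ∧
    s = {(i, j, k), (i, j + 1, k), (i, j, k + 1), (i, j + 1, k + 1)})

/-- `f` is a folding of the polyomino `P` onto the surface of the box `a × b × c`, along grid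
edges.  Every cell of `P` is placed isometrically on a unit square of the surface, two adjacent
cells of `P` stay attached along their common edge, different cells are placed on different unit
squares of the surface, and every unit square of the surface is covered.

For two horizontally adjacent cells the vector `v` (the direction of the common edge) is the same
and the fold angle at the common edge is zero if the vectors `u` are equal; otherwise, since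
`u' ≠ -u`, the two vectors `u` are orthogonal and the fold angle is `±90°`.  Similarly for vertically
adjacent cells. -/
structure IsFolding (P : Finset Cell) (a b c : ℕ) (f : Cell → Placement) : Prop where
  isometric : ∀ q ∈ P, (f q).Isometric
  surface : ∀ q ∈ P, IsSurfaceSquare a b c (f q).corners
  right : ∀ x y : ℤ, (x, y) ∈ P → (x + 1, y) ∈ P →
    (f (x + 1, y)).p = (f (x, y)).p + (f (x, y)).u ∧ (f (x + 1, y)).v = (f (x, y)).v ∧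
    (f (x + 1, y)).u ≠ -(f (x, y)).u
  up : ∀ x y : ℤ, (x, y) ∈ P → (x, y + 1) ∈ P →
    (f (x, y + 1)).p = (f (x, y)).p + (f (x, y)).v ∧ (f (x, y + 1)).u = (f (x, y)).u ∧
    (f (x, y + 1)).v ≠ -(f (x, y)).v
  injective : ∀ q ∈ P, ∀ r ∈ P, (f q).corners = (f r).corners → q = r
  cover : ∀ s, IsSurfaceSquare a b c s → ∃ q ∈ P, (f q).corners = s

/-- The vertical unit edge from `(x, y)` to `(x, y + 1)` is a crease of `f`: it is the common edge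
of two cells of `P`, and the fold angle is not zero. -/
def CreaseV (P : Finset Cell) (f : Cell → Placement) (x y : ℤ) : Prop :=
  (x - 1, y) ∈ P ∧ (x, y) ∈ P ∧ (f (x - 1, y)).u ≠ (f (x, y)).u

/-- The horizontal unit edge from `(x, y)` to `(x + 1, y)` is a crease of `f`: it is the common edge
of two cells of `P`, and the fold angle is not zero. -/
def CreaseH (P : Finset Cell) (f : Cell → Placement) (x y : ℤ) : Prop :=
  (x, y - 1) ∈ P ∧ (x, y) ∈ P ∧ (f (x, y - 1)).v ≠ (f (x, y)).v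

/-- No unit edge is a crease of both foldings. -/
def Independent (P : Finset Cell) (f g : Cell → Placement) : Prop :=
  ∀ x y : ℤ, ¬ (CreaseV P f x y ∧ CreaseV P g x y) ∧ ¬ (CreaseH P f x y ∧ CreaseH P g x y)

/-- A crease of `f` passes straight through the grid vertex `(x, y)` in the horizontal direction. -/
def StraightH (P : Finset Cell) (f : Cell → Placement) (x y : ℤ) : Prop :=
  CreaseH P f (x - 1) y ∧ CreaseH P f x y

/-- A crease of `f` passes straight through the grid vertex `(x, y)` in the vertical direction. -/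
def StraightV (P : Finset Cell) (f : Cell → Placement) (x y : ℤ) : Prop :=
  CreaseV P f x (y - 1) ∧ CreaseV P f x y

/-- The creases of the two foldings do not cross: there is no grid vertex through which a crease of
one folding passes straight and a crease of the other folding passes straight in the perpendicular
direction. -/
def NonCrossing (P : Finset Cell) (f g : Cell → Placement) : Prop :=
  ∀ x y : ℤ, ¬ (StraightH P f x y ∧ StraightV P g x y) ∧ ¬ (StraightV P f x y ∧ StraightH P g x y)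

/-! ## The net -/

/-- The cells of the polyomino, with the placements on the box `1 × 6 × 6` and on the cube
`4 × 4 × 4`. -/
def data : List (Cell × Placement × Placement) :=
  [((0, 4), ⟨(1, 6, 2), (0, 0, 1), (-1, 0, 0)⟩, ⟨(4, 2, 2), (0, 0, 1), (0, -1, 0)⟩),
   ((1, 4), ⟨(1, 6, 3), (0, 0, 1), (-1, 0, 0)⟩, ⟨(4, 2, 3), (0, 0, 1), (0, -1, 0)⟩),
   ((1, 5), ⟨(0, 6, 3), (0, 0, 1), (0, -1, 0)⟩, ⟨(4, 1, 3), (0, 0, 1), (0, -1, 0)⟩),
   ((2, 5), ⟨(0, 6, 4), (0, 0, 1), (0, -1, 0)⟩, ⟨(4, 1, 4), (-1, 0, 0), (0, -1, 0)⟩),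
   ((3, 5), ⟨(0, 6, 5), (0, 0, 1), (0, -1, 0)⟩, ⟨(3, 1, 4), (-1, 0, 0), (0, -1, 0)⟩),
   ((2, 6), ⟨(0, 5, 4), (0, 0, 1), (0, -1, 0)⟩, ⟨(4, 0, 4), (-1, 0, 0), (0, 0, -1)⟩),
   ((3, 6), ⟨(0, 5, 5), (0, 0, 1), (0, -1, 0)⟩, ⟨(3, 0, 4), (-1, 0, 0), (0, 0, -1)⟩),
   ((3, 4), ⟨(1, 6, 5), (0, 0, 1), (-1, 0, 0)⟩, ⟨(3, 2, 4), (-1, 0, 0), (0, -1, 0)⟩),
   ((2, 7), ⟨(0, 4, 4), (0, 0, 1), (0, -1, 0)⟩, ⟨(4, 0, 3), (-1, 0, 0), (0, 0, -1)⟩),
   ((4, 6), ⟨(0, 5, 6), (1, 0, 0), (0, -1, 0)⟩, ⟨(2, 0, 4), (-1, 0, 0), (0, 0, -1)⟩),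
   ((4, 4), ⟨(1, 6, 6), (0, -1, 0), (-1, 0, 0)⟩, ⟨(2, 2, 4), (-1, 0, 0), (0, -1, 0)⟩),
   ((2, 8), ⟨(0, 3, 4), (0, 0, 1), (0, -1, 0)⟩, ⟨(4, 0, 2), (-1, 0, 0), (0, 0, -1)⟩),
   ((1, 7), ⟨(0, 4, 3), (0, 0, 1), (0, -1, 0)⟩, ⟨(4, 1, 3), (0, -1, 0), (0, 0, -1)⟩),
   ((5, 6), ⟨(1, 5, 6), (0, 0, -1), (0, -1, 0)⟩, ⟨(1, 0, 4), (-1, 0, 0), (0, 0, -1)⟩),
   ((4, 3), ⟨(1, 6, 5), (0, -1, 0), (0, 0, 1)⟩, ⟨(2, 3, 4), (-1, 0, 0), (0, -1, 0)⟩),
   ((1, 8), ⟨(0, 3, 3), (0, 0, 1), (0, -1, 0)⟩, ⟨(4, 1, 2), (0, -1, 0), (0, 0, -1)⟩),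
   ((6, 6), ⟨(1, 5, 5), (0, 0, -1), (0, -1, 0)⟩, ⟨(0, 0, 4), (0, 1, 0), (0, 0, -1)⟩),
   ((5, 7), ⟨(1, 4, 6), (0, 0, -1), (0, -1, 0)⟩, ⟨(1, 0, 3), (-1, 0, 0), (0, 0, -1)⟩),
   ((7, 6), ⟨(1, 5, 4), (0, 0, -1), (0, -1, 0)⟩, ⟨(0, 1, 4), (0, 1, 0), (0, 0, -1)⟩),
   ((6, 7), ⟨(1, 4, 5), (0, 0, -1), (0, -1, 0)⟩, ⟨(0, 0, 3), (0, 1, 0), (0, 0, -1)⟩),
   ((6, 5), ⟨(1, 6, 5), (0, 0, -1), (0, -1, 0)⟩, ⟨(1, 0, 4), (0, 1, 0), (-1, 0, 0)⟩),
   ((5, 8), ⟨(1, 3, 6), (0, 0, -1), (0, -1, 0)⟩, ⟨(1, 0, 2), (-1, 0, 0), (0, 0, -1)⟩),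
   ((8, 6), ⟨(1, 5, 3), (0, 0, -1), (0, -1, 0)⟩, ⟨(0, 2, 4), (0, 1, 0), (0, 0, -1)⟩),
   ((7, 7), ⟨(1, 4, 4), (0, 0, -1), (0, -1, 0)⟩, ⟨(0, 1, 3), (0, 1, 0), (0, 0, -1)⟩),
   ((7, 5), ⟨(1, 6, 4), (0, 0, -1), (0, -1, 0)⟩, ⟨(1, 1, 4), (0, 1, 0), (-1, 0, 0)⟩),
   ((6, 8), ⟨(1, 3, 5), (0, 0, -1), (0, -1, 0)⟩, ⟨(0, 0, 2), (0, 1, 0), (0, 0, -1)⟩),
   ((6, 4), ⟨(0, 6, 5), (0, 0, -1), (1, 0, 0)⟩, ⟨(2, 0, 4), (0, 1, 0), (-1, 0, 0)⟩),
   ((5, 9), ⟨(1, 2, 6), (0, 0, -1), (0, -1, 0)⟩, ⟨(1, 0, 1), (-1, 0, 0), (0, 0, -1)⟩),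
   ((4, 8), ⟨(0, 3, 6), (1, 0, 0), (0, -1, 0)⟩, ⟨(2, 0, 2), (-1, 0, 0), (0, 0, -1)⟩),
   ((9, 6), ⟨(1, 5, 2), (0, 0, -1), (0, -1, 0)⟩, ⟨(0, 3, 4), (0, 1, 0), (0, 0, -1)⟩),
   ((8, 7), ⟨(1, 4, 3), (0, 0, -1), (0, -1, 0)⟩, ⟨(0, 2, 3), (0, 1, 0), (0, 0, -1)⟩),
   ((8, 5), ⟨(1, 6, 3), (0, 0, -1), (0, -1, 0)⟩, ⟨(1, 2, 4), (0, 1, 0), (-1, 0, 0)⟩),
   ((7, 8), ⟨(1, 3, 4), (0, 0, -1), (0, -1, 0)⟩, ⟨(0, 1, 2), (0, 1, 0), (0, 0, -1)⟩),
   ((6, 9), ⟨(1, 2, 5), (0, 0, -1), (0, -1, 0)⟩, ⟨(0, 0, 1), (0, 1, 0), (0, 0, -1)⟩),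
   ((4, 9), ⟨(0, 2, 6), (1, 0, 0), (0, -1, 0)⟩, ⟨(2, 0, 1), (-1, 0, 0), (0, 0, -1)⟩),
   ((10, 6), ⟨(1, 5, 1), (0, 0, -1), (0, -1, 0)⟩, ⟨(0, 4, 4), (1, 0, 0), (0, 0, -1)⟩),
   ((9, 7), ⟨(1, 4, 2), (0, 0, -1), (0, -1, 0)⟩, ⟨(0, 3, 3), (0, 1, 0), (0, 0, -1)⟩),
   ((9, 5), ⟨(1, 6, 2), (0, 0, -1), (0, -1, 0)⟩, ⟨(1, 3, 4), (0, 1, 0), (-1, 0, 0)⟩),
   ((8, 8), ⟨(1, 3, 3), (0, 0, -1), (0, -1, 0)⟩, ⟨(0, 2, 2), (0, 1, 0), (0, 0, -1)⟩),
   ((7, 9), ⟨(1, 2, 4), (0, 0, -1), (0, -1, 0)⟩, ⟨(0, 1, 1), (0, 1, 0), (0, 0, -1)⟩),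
   ((6, 10), ⟨(1, 1, 5), (0, 0, -1), (0, -1, 0)⟩, ⟨(0, 0, 0), (0, 1, 0), (1, 0, 0)⟩),
   ((11, 6), ⟨(1, 5, 0), (-1, 0, 0), (0, -1, 0)⟩, ⟨(1, 4, 4), (1, 0, 0), (0, 0, -1)⟩),
   ((10, 7), ⟨(1, 4, 1), (0, 0, -1), (0, -1, 0)⟩, ⟨(0, 4, 3), (1, 0, 0), (0, 0, -1)⟩),
   ((9, 8), ⟨(1, 3, 2), (0, 0, -1), (0, -1, 0)⟩, ⟨(0, 3, 2), (0, 1, 0), (0, 0, -1)⟩),
   ((9, 4), ⟨(0, 6, 2), (0, 0, -1), (1, 0, 0)⟩, ⟨(2, 3, 4), (0, 1, 0), (-1, 0, 0)⟩),
   ((8, 9), ⟨(1, 2, 3), (0, 0, -1), (0, -1, 0)⟩, ⟨(0, 2, 1), (0, 1, 0), (0, 0, -1)⟩),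
   ((7, 10), ⟨(1, 1, 4), (0, 0, -1), (0, -1, 0)⟩, ⟨(0, 1, 0), (0, 1, 0), (1, 0, 0)⟩),
   ((6, 11), ⟨(1, 0, 5), (0, 0, -1), (-1, 0, 0)⟩, ⟨(1, 0, 0), (0, 1, 0), (1, 0, 0)⟩),
   ((10, 8), ⟨(1, 3, 1), (0, 0, -1), (0, -1, 0)⟩, ⟨(0, 4, 2), (1, 0, 0), (0, 0, -1)⟩),
   ((9, 9), ⟨(1, 2, 2), (0, 0, -1), (0, -1, 0)⟩, ⟨(0, 3, 1), (0, 1, 0), (0, 0, -1)⟩),
   ((9, 3), ⟨(0, 5, 2), (0, 0, -1), (0, 1, 0)⟩, ⟨(3, 3, 4), (0, 1, 0), (-1, 0, 0)⟩),
   ((8, 10), ⟨(1, 1, 3), (0, 0, -1), (0, -1, 0)⟩, ⟨(0, 2, 0), (0, 1, 0), (1, 0, 0)⟩),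
   ((6, 12), ⟨(0, 0, 5), (0, 0, -1), (0, 1, 0)⟩, ⟨(2, 0, 0), (0, 1, 0), (1, 0, 0)⟩),
   ((10, 9), ⟨(1, 2, 1), (0, 0, -1), (0, -1, 0)⟩, ⟨(0, 4, 1), (1, 0, 0), (0, 0, -1)⟩),
   ((9, 10), ⟨(1, 1, 2), (0, 0, -1), (0, -1, 0)⟩, ⟨(0, 3, 0), (0, 1, 0), (1, 0, 0)⟩),
   ((10, 3), ⟨(0, 5, 1), (0, 0, -1), (0, 1, 0)⟩, ⟨(3, 4, 4), (0, 0, -1), (-1, 0, 0)⟩),
   ((8, 3), ⟨(0, 5, 3), (0, 0, -1), (0, 1, 0)⟩, ⟨(3, 2, 4), (0, 1, 0), (-1, 0, 0)⟩),
   ((9, 2), ⟨(0, 4, 2), (0, 0, -1), (0, 1, 0)⟩, ⟨(4, 3, 4), (0, 1, 0), (-1, 0, 0)⟩),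
   ((7, 12), ⟨(0, 0, 4), (0, 0, -1), (0, 1, 0)⟩, ⟨(2, 1, 0), (0, 1, 0), (1, 0, 0)⟩),
   ((6, 13), ⟨(0, 1, 5), (0, 0, -1), (0, 1, 0)⟩, ⟨(3, 0, 0), (0, 1, 0), (1, 0, 0)⟩),
   ((5, 12), ⟨(0, 0, 6), (0, 0, -1), (0, 1, 0)⟩, ⟨(2, 0, 1), (0, 0, -1), (1, 0, 0)⟩),
   ((11, 9), ⟨(1, 2, 0), (-1, 0, 0), (0, -1, 0)⟩, ⟨(1, 4, 1), (1, 0, 0), (0, 0, -1)⟩),
   ((9, 11), ⟨(1, 0, 2), (0, 0, -1), (-1, 0, 0)⟩, ⟨(1, 3, 0), (0, 1, 0), (1, 0, 0)⟩),
   ((11, 3), ⟨(0, 5, 0), (1, 0, 0), (0, 1, 0)⟩, ⟨(3, 4, 3), (0, 0, -1), (-1, 0, 0)⟩),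
   ((10, 2), ⟨(0, 4, 1), (0, 0, -1), (0, 1, 0)⟩, ⟨(4, 4, 4), (0, 0, -1), (-1, 0, 0)⟩),
   ((8, 2), ⟨(0, 4, 3), (0, 0, -1), (0, 1, 0)⟩, ⟨(4, 2, 4), (0, 1, 0), (-1, 0, 0)⟩),
   ((7, 13), ⟨(0, 1, 4), (0, 0, -1), (0, 1, 0)⟩, ⟨(3, 1, 0), (0, 1, 0), (1, 0, 0)⟩),
   ((5, 13), ⟨(0, 1, 6), (0, 0, -1), (0, 1, 0)⟩, ⟨(3, 0, 1), (0, 0, -1), (1, 0, 0)⟩),
   ((4, 12), ⟨(1, 0, 6), (-1, 0, 0), (0, 1, 0)⟩, ⟨(2, 0, 2), (0, 0, -1), (1, 0, 0)⟩),
   ((12, 9), ⟨(0, 2, 0), (0, 0, 1), (0, -1, 0)⟩, ⟨(2, 4, 1), (1, 0, 0), (0, 0, -1)⟩),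
   ((11, 4), ⟨(0, 6, 0), (1, 0, 0), (0, 0, 1)⟩, ⟨(2, 4, 3), (0, 0, -1), (-1, 0, 0)⟩),
   ((10, 1), ⟨(0, 3, 1), (0, 0, -1), (0, 1, 0)⟩, ⟨(4, 3, 4), (0, 0, -1), (0, 1, 0)⟩),
   ((7, 2), ⟨(0, 4, 4), (0, 0, -1), (0, 1, 0)⟩, ⟨(4, 1, 4), (0, 1, 0), (-1, 0, 0)⟩),
   ((8, 1), ⟨(0, 3, 3), (0, 0, -1), (0, 1, 0)⟩, ⟨(4, 2, 3), (0, 1, 0), (0, 0, 1)⟩),
   ((8, 13), ⟨(0, 1, 3), (0, 0, -1), (0, 1, 0)⟩, ⟨(3, 2, 0), (0, 1, 0), (1, 0, 0)⟩),
   ((5, 14), ⟨(0, 2, 6), (0, 0, -1), (0, 1, 0)⟩, ⟨(4, 0, 1), (0, 0, -1), (0, 1, 0)⟩),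
   ((3, 12), ⟨(1, 0, 5), (0, 0, 1), (0, 1, 0)⟩, ⟨(2, 0, 3), (0, 0, -1), (1, 0, 0)⟩),
   ((13, 9), ⟨(0, 2, 1), (0, 0, 1), (0, -1, 0)⟩, ⟨(3, 4, 1), (1, 0, 0), (0, 0, -1)⟩),
   ((12, 10), ⟨(0, 1, 0), (0, 0, 1), (0, -1, 0)⟩, ⟨(2, 4, 0), (1, 0, 0), (0, -1, 0)⟩),
   ((12, 8), ⟨(0, 3, 0), (0, 0, 1), (0, -1, 0)⟩, ⟨(2, 4, 2), (1, 0, 0), (0, 0, -1)⟩),
   ((12, 4), ⟨(1, 6, 0), (0, -1, 0), (0, 0, 1)⟩, ⟨(2, 4, 2), (0, 0, -1), (-1, 0, 0)⟩),
   ((11, 1), ⟨(0, 3, 0), (1, 0, 0), (0, 1, 0)⟩, ⟨(4, 3, 3), (0, 0, -1), (0, 1, 0)⟩),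
   ((5, 15), ⟨(0, 3, 6), (0, 0, -1), (0, 1, 0)⟩, ⟨(4, 1, 1), (0, 0, -1), (0, 1, 0)⟩),
   ((3, 11), ⟨(0, 0, 5), (0, 0, 1), (1, 0, 0)⟩, ⟨(1, 0, 3), (0, 0, -1), (1, 0, 0)⟩),
   ((13, 10), ⟨(0, 1, 1), (0, 0, 1), (0, -1, 0)⟩, ⟨(3, 4, 0), (1, 0, 0), (0, -1, 0)⟩),
   ((13, 8), ⟨(0, 3, 1), (0, 0, 1), (0, -1, 0)⟩, ⟨(3, 4, 2), (1, 0, 0), (0, 0, -1)⟩),
   ((12, 11), ⟨(0, 0, 0), (0, 0, 1), (1, 0, 0)⟩, ⟨(2, 3, 0), (1, 0, 0), (0, -1, 0)⟩),
   ((11, 0), ⟨(0, 2, 0), (1, 0, 0), (0, 1, 0)⟩, ⟨(4, 2, 3), (0, 0, -1), (0, 1, 0)⟩),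
   ((4, 15), ⟨(1, 3, 6), (-1, 0, 0), (0, 1, 0)⟩, ⟨(4, 1, 2), (0, 0, -1), (0, 1, 0)⟩),
   ((14, 10), ⟨(0, 1, 2), (0, 0, 1), (0, -1, 0)⟩, ⟨(4, 4, 0), (0, 0, 1), (0, -1, 0)⟩),
   ((14, 8), ⟨(0, 3, 2), (0, 0, 1), (0, -1, 0)⟩, ⟨(4, 4, 2), (0, -1, 0), (0, 0, -1)⟩),
   ((13, 7), ⟨(0, 4, 1), (0, 0, 1), (0, -1, 0)⟩, ⟨(3, 4, 3), (1, 0, 0), (0, 0, -1)⟩),
   ((11, 11), ⟨(0, 1, 0), (0, -1, 0), (1, 0, 0)⟩, ⟨(1, 3, 0), (1, 0, 0), (0, -1, 0)⟩),
   ((14, 11), ⟨(0, 0, 2), (0, 0, 1), (1, 0, 0)⟩, ⟨(4, 3, 0), (0, 0, 1), (0, -1, 0)⟩),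
   ((11, 12), ⟨(1, 1, 0), (0, -1, 0), (0, 0, 1)⟩, ⟨(1, 2, 0), (1, 0, 0), (0, -1, 0)⟩),
   ((15, 11), ⟨(0, 0, 3), (0, 0, 1), (1, 0, 0)⟩, ⟨(4, 3, 1), (0, 0, 1), (0, -1, 0)⟩)]

/-- The list of cells. -/
def cells : List Cell := data.map Prod.fst

/-- The cells outside of the polyomino in the square `[-1, 17] × [-1, 17]`. -/
def outside : List Cell :=
  [(-1, -1), (0, -1), (-1, 0), (1, -1), (0, 0), (-1, 1), (2, -1), (1, 0), (0, 1), (-1, 2), (3, -1), (2, 0), (1, 1), (0, 2), (-1, 3), (4, -1), (3, 0), (2, 1), (1, 2), (0, 3), (-1, 4), (5, -1), (4, 0), (3, 1), (2, 2), (1, 3), (-1, 5), (6, -1), (5, 0), (4, 1), (3, 2), (2, 3), (0, 5), (-1, 6), (7, -1), (6, 0), (5, 1), (4, 2), (3, 3), (2, 4), (0, 6), (-1, 7), (8, -1), (7, 0), (6, 1), (5, 2), (1, 6), (0, 7), (-1, 8), (9, -1), (8, 0), (7, 1), (6, 2), (5, 3), (0, 8), (-1, 9), (10, -1), (9, 0), (6, 3), (5, 4), (0, 9), (-1, 10), (11, -1),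 (10, 0), (9, 1), (7, 3), (5, 5), (1, 9), (0, 10), (-1, 11), (12, -1), (7, 4), (4, 5), (2, 9), (1, 10), (0, 11), (-1, 12), (13, -1), (12, 0), (8, 4), (3, 9), (2, 10), (1, 11), (0, 12), (-1, 13), (14, -1), (13, 0), (12, 1), (3, 10), (3, 8), (2, 11), (1, 12), (0, 13), (-1, 14), (15, -1), (14, 0), (13, 1), (12, 2), (4, 10), (3, 7), (2, 12), (1, 13), (0, 14), (-1, 15), (16, -1), (15, 0), (14, 1), (13, 2), (12, 3), (11, 2), (5, 10), (4, 11), (4, 7), (2, 13), (1, 14), (0, 15), (-1, 16), (16, 0), (15, 1), (14, 2), (13, 3), (5, 11), (3, 13), (2, 14), (1, 15), (0, 16), (16, 1), (15, 2), (14, 3), (13, 4), (4, 13), (3, 14), (2, 15), (1, 16), (16, 2), (15, 3), (14, 4), (13, 5), (4, 14), (3, 15), (2, 16), (16, 3), (15, 4), (14, 5), (13, 6), (12, 5), (3, 16), (16, 4), (15, 5), (14, 6), (12, 6), (11, 5), (4, 16), (16, 5), (15, 6), (14, 7), (12, 7), (10, 5), (5, 16), (16, 6), (15, 7), (11,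 7), (10, 4), (6, 16), (16, 7), (15, 8), (11, 8), (7, 16), (6, 15), (16, 8), (15, 9), (8, 16), (7, 15), (6, 14), (16, 9), (15, 10), (14, 9), (9, 16), (8, 15), (7, 14), (16, 10), (10, 16), (9, 15), (8, 14), (16, 11), (11, 16), (10, 15), (9, 14), (16, 12), (12, 16), (11, 15), (10, 14), (9, 13), (16, 13), (15, 12), (13, 16), (12, 15), (11, 14), (10, 13), (9, 12), (16, 14), (15, 13), (14, 12), (14, 16), (13, 15), (12, 14), (11, 13), (10, 12), (8, 12), (16, 15), (15, 14), (14, 13), (13, 12), (15, 16), (14, 15), (13, 14), (12, 13), (10, 11), (8, 11), (16, 16), (15, 15), (14, 14), (13, 13), (12, 12), (13, 11), (10, 10), (7, 11), (11, 10)]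

/-- The polyomino. -/
def P : Finset Cell := cells.toFinset

/-- The folding onto the box `1 × 6 × 6`. -/
def f (q : Cell) : Placement := ((data.lookup q).map Prod.fst).getD ⟨0, 0, 0⟩

/-- The folding onto the cube `4 × 4 × 4`. -/
def g (q : Cell) : Placement := ((data.lookup q).map Prod.snd).getD ⟨0, 0, 0⟩

instance (c d : Cell) : Decidable (Adjacent c d) := by unfold Adjacent; infer_instance

instance (t : Placement) : Decidable t.Isometric := by unfold Placement.Isometric; infer_instance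

/-- Every cell of the list `rest` is adjacent to an earlier cell. -/
def okOrder : List Cell → List Cell → Bool
  | _, [] => true
  | seen, c :: t => seen.any (fun d => decide (Adjacent d c)) && okOrder (c :: seen) t

theorem mem_P {q : Cell} : q ∈ P ↔ q ∈ cells := List.mem_toFinset

theorem nodup_cells : cells.Nodup := by decide +kernel

theorem lookup_eq {α β : Type*} [BEq α] [LawfulBEq α] (l : List (α × β)) (h : (l.map Prod.fst).Nodup)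
    (e : α × β) (he : e ∈ l) : l.lookup e.1 = some e.2 := by
  induction l with
  | nil => simp at he
  | cons a t ih =>
    rw [List.map_cons, List.nodup_cons] at h
    rw [List.lookup_cons]
    by_cases hk : e.1 = a.1
    · rcases List.mem_cons.mp he with rfl | he'
      · rw [beq_self_eq_true]
      · exact absurd (hk ▸ List.mem_map_of_mem he') h.1
    · have : (e.1 == a.1) = false := by simpa using hk
      rw [this]
      rcases List.mem_cons.mp he with rfl | he'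
      · exact absurd rfl hk
      · exact ih h.2 he'

theorem f_eq {e : Cell × Placement × Placement} (he : e ∈ data) : f e.1 = e.2.1 := by
  unfold f; rw [lookup_eq data nodup_cells e he]; rfl

theorem g_eq {e : Cell × Placement × Placement} (he : e ∈ data) : g e.1 = e.2.2 := by
  unfold g; rw [lookup_eq data nodup_cells e he]; rfl

theorem exists_data {q : Cell} (h : q ∈ P) : ∃ e ∈ data, e.1 = q := by
  rw [mem_P] at h
  obtain ⟨e, he, h2⟩ := List.mem_map.mp h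
  exact ⟨e, he, h2⟩

theorem fst_mem {e : Cell × Placement × Placement} (he : e ∈ data) : e.1 ∈ P :=
  mem_P.mpr (List.mem_map_of_mem he)

/-! ## The two foldings -/

/-- The placements of the first folding. -/
def dataF : List (Cell × Placement) := data.map (fun e => (e.1, e.2.1))

/-- The placements of the second folding. -/
def dataG : List (Cell × Placement) := data.map (fun e => (e.1, e.2.2))

/-- The least coordinates of the corners of a placed square. -/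
def lo (t : Placement) : Vec :=
  (min (min t.p.1 (t.p.1 + t.u.1)) (min (t.p.1 + t.v.1) (t.p.1 + t.u.1 + t.v.1)),
   min (min t.p.2.1 (t.p.2.1 + t.u.2.1)) (min (t.p.2.1 + t.v.2.1) (t.p.2.1 + t.u.2.1 + t.v.2.1)),
   min (min t.p.2.2 (t.p.2.2 + t.u.2.2)) (min (t.p.2.2 + t.v.2.2) (t.p.2.2 + t.u.2.2 + t.v.2.2)))

/-- `s` is a surface square with least coordinates `w`. -/
def SurfAt (a b c : ℕ) (s : Multiset Vec) (w : Vec) : Prop :=
  (0 ≤ w.1 ∧ w.1 < a ∧ 0 ≤ w.2.1 ∧ w.2.1 < b ∧ (w.2.2 = 0 ∨ w.2.2 = c) ∧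
    s = {(w.1, w.2.1, w.2.2), (w.1 + 1, w.2.1, w.2.2), (w.1, w.2.1 + 1, w.2.2),
      (w.1 + 1, w.2.1 + 1, w.2.2)}) ∨
  (0 ≤ w.1 ∧ w.1 < a ∧ 0 ≤ w.2.2 ∧ w.2.2 < c ∧ (w.2.1 = 0 ∨ w.2.1 = b) ∧
    s = {(w.1, w.2.1, w.2.2), (w.1 + 1, w.2.1, w.2.2), (w.1, w.2.1, w.2.2 + 1),
      (w.1 + 1, w.2.1, w.2.2 + 1)}) ∨
  (0 ≤ w.2.1 ∧ w.2.1 < b ∧ 0 ≤ w.2.2 ∧ w.2.2 < c ∧ (w.1 = 0 ∨ w.1 = a) ∧
    s = {(w.1, w.2.1, w.2.2), (w.1, w.2.1 + 1, w.2.2), (w.1, w.2.1, w.2.2 + 1),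
      (w.1, w.2.1 + 1, w.2.2 + 1)})

instance (a b c : ℕ) (s : Multiset Vec) (w : Vec) : Decidable (SurfAt a b c s w) := by
  unfold SurfAt; infer_instance

theorem SurfAt.isSurfaceSquare {a b c : ℕ} {s : Multiset Vec} {w : Vec} (h : SurfAt a b c s w) :
    IsSurfaceSquare a b c s := by
  rcases h with ⟨h1, h2, h3, h4, h5, h6⟩ | ⟨h1, h2, h3, h4, h5, h6⟩ | ⟨h1, h2, h3, h4, h5, h6⟩
  · exact Or.inl ⟨w.1, w.2.1, w.2.2, h1, h2, h3, h4, h5, h6⟩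
  · exact Or.inr (Or.inl ⟨w.1, w.2.1, w.2.2, h1, h2, h3, h4, h5, h6⟩)
  · exact Or.inr (Or.inr ⟨w.1, w.2.1, w.2.2, h1, h2, h3, h4, h5, h6⟩)

/-- The center of a placed square, multiplied by two. -/
def ctr (t : Placement) : Vec := t.p + t.p + t.u + t.v

theorem corners_sum (t : Placement) : t.corners.sum = ctr t + ctr t := by
  unfold Placement.corners ctr
  simp only [Multiset.insert_eq_cons, Multiset.sum_cons, Multiset.sum_singleton]
  abel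

theorem ctr_of_corners {t t' : Placement} (h : t.corners = t'.corners) : ctr t = ctr t' := by
  have h1 : ctr t + ctr t = ctr t' + ctr t' := by rw [← corners_sum, ← corners_sum, h]
  have e1 := congrArg Prod.fst h1
  have e2 := congrArg (fun z : Vec => z.2.1) h1
  have e3 := congrArg (fun z : Vec => z.2.2) h1
  simp only [Prod.fst_add, Prod.snd_add] at e1 e2 e3
  refine Prod.ext (by omega) (Prod.ext (by omega) (by omega))

/-- The conditions of a folding, for a list of cells with placements. -/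
def Check (a b c : ℕ) (L : List (Cell × Placement)) : Prop :=
  (∀ e ∈ L, e.2.Isometric) ∧ (∀ e ∈ L, SurfAt a b c e.2.corners (lo e.2)) ∧
  (∀ e ∈ L, ∀ e' ∈ L, (e'.1.1 = e.1.1 + 1 ∧ e'.1.2 = e.1.2) →
    e'.2.p = e.2.p + e.2.u ∧ e'.2.v = e.2.v ∧ e'.2.u ≠ -e.2.u) ∧
  (∀ e ∈ L, ∀ e' ∈ L, (e'.1.1 = e.1.1 ∧ e'.1.2 = e.1.2 + 1) →
    e'.2.p = e.2.p + e.2.v ∧ e'.2.u = e.2.u ∧ e'.2.v ≠ -e.2.v) ∧
  (L.map (fun e => ctr e.2)).Nodup

instance (a b c : ℕ) (L : List (Cell × Placement)) : Decidable (Check a b c L) := by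
  unfold Check; infer_instance

/-- Every surface square is covered. -/
def CheckCover (a b c : ℕ) (L : List (Cell × Placement)) : Prop :=
  (∀ i ∈ List.range a, ∀ j ∈ List.range b, ∀ k ∈ [0, c], ∃ e ∈ L, e.2.corners =
    {((i : ℤ), (j : ℤ), (k : ℤ)), ((i : ℤ) + 1, (j : ℤ), (k : ℤ)), ((i : ℤ), (j : ℤ) + 1, (k : ℤ)),
      ((i : ℤ) + 1, (j : ℤ) + 1, (k : ℤ))}) ∧
  (∀ i ∈ List.range a, ∀ k ∈ List.range c, ∀ j ∈ [0, b], ∃ e ∈ L, e.2.corners =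
    {((i : ℤ), (j : ℤ), (k : ℤ)), ((i : ℤ) + 1, (j : ℤ), (k : ℤ)), ((i : ℤ), (j : ℤ), (k : ℤ) + 1),
      ((i : ℤ) + 1, (j : ℤ), (k : ℤ) + 1)}) ∧
  (∀ j ∈ List.range b, ∀ k ∈ List.range c, ∀ i ∈ [0, a], ∃ e ∈ L, e.2.corners =
    {((i : ℤ), (j : ℤ), (k : ℤ)), ((i : ℤ), (j : ℤ) + 1, (k : ℤ)), ((i : ℤ), (j : ℤ), (k : ℤ) + 1),
      ((i : ℤ), (j : ℤ) + 1, (k : ℤ) + 1)})

instance (a b c : ℕ) (L : List (Cell × Placement)) : Decidable (CheckCover a b c L) := by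
  unfold CheckCover; infer_instance

theorem isFolding_of_check {a b c : ℕ} {L : List (Cell × Placement)} {F : Cell → Placement}
    (hL : L.map Prod.fst = cells) (hF : ∀ e ∈ L, F e.1 = e.2) (h1 : Check a b c L)
    (h2 : CheckCover a b c L) : IsFolding P a b c F := by
  have hex : ∀ q ∈ P, ∃ e ∈ L, e.1 = q := by
    intro q hq
    rw [mem_P, ← hL] at hq
    obtain ⟨e, he, h⟩ := List.mem_map.mp hq
    exact ⟨e, he, h⟩
  have hmem : ∀ e ∈ L, e.1 ∈ P := fun e he => mem_P.mpr (hL ▸ List.mem_map_of_mem he)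
  obtain ⟨k1, k2, k3, k4, k5⟩ := h1
  obtain ⟨m1, m2, m3⟩ := h2
  refine ⟨?_, ?_, ?_, ?_, ?_, ?_⟩
  · intro q hq
    obtain ⟨e, he, rfl⟩ := hex q hq
    rw [hF e he]; exact k1 e he
  · intro q hq
    obtain ⟨e, he, rfl⟩ := hex q hq
    rw [hF e he]; exact (k2 e he).isSurfaceSquare
  · intro x y hx hy
    obtain ⟨e, he, h⟩ := hex _ hx
    obtain ⟨e', he', h'⟩ := hex _ hy
    rw [← h, ← h', hF e he, hF e' he']
    exact k3 e he e' he' (by rw [h, h']; exact ⟨rfl, rfl⟩)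
  · intro x y hx hy
    obtain ⟨e, he, h⟩ := hex _ hx
    obtain ⟨e', he', h'⟩ := hex _ hy
    rw [← h, ← h', hF e he, hF e' he']
    exact k4 e he e' he' (by rw [h, h']; exact ⟨rfl, rfl⟩)
  · intro q hq r hr hqr
    obtain ⟨e, he, rfl⟩ := hex q hq
    obtain ⟨e', he', rfl⟩ := hex r hr
    rw [hF e he, hF e' he'] at hqr
    rw [List.inj_on_of_nodup_map k5 he he' (ctr_of_corners hqr)]
  · intro s hs
    rcases hs with ⟨i, j, k, a1, a2, a3, a4, a5, rfl⟩ | ⟨i, j, k, a1, a2, a3, a4, a5, rfl⟩ |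
      ⟨i, j, k, a1, a2, a3, a4, a5, rfl⟩
    · obtain ⟨i, rfl⟩ := Int.eq_ofNat_of_zero_le a1
      obtain ⟨j, rfl⟩ := Int.eq_ofNat_of_zero_le a3
      obtain ⟨k, hk, rfl⟩ : ∃ n : ℕ, n ∈ [0, c] ∧ k = (n : ℤ) := by
        rcases a5 with rfl | rfl
        · exact ⟨0, by simp, by simp⟩
        · exact ⟨c, by simp, rfl⟩
      obtain ⟨e, he, h⟩ := m1 i (List.mem_range.mpr (by omega)) j (List.mem_range.mpr (by omega))
        k hk
      exact ⟨e.1, hmem e he, by rw [hF e he]; exact h⟩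
    · obtain ⟨i, rfl⟩ := Int.eq_ofNat_of_zero_le a1
      obtain ⟨k, rfl⟩ := Int.eq_ofNat_of_zero_le a3
      obtain ⟨j, hj, rfl⟩ : ∃ n : ℕ, n ∈ [0, b] ∧ j = (n : ℤ) := by
        rcases a5 with rfl | rfl
        · exact ⟨0, by simp, by simp⟩
        · exact ⟨b, by simp, rfl⟩
      obtain ⟨e, he, h⟩ := m2 i (List.mem_range.mpr (by omega)) k (List.mem_range.mpr (by omega))
        j hj
      exact ⟨e.1, hmem e he, by rw [hF e he]; exact h⟩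
    · obtain ⟨j, rfl⟩ := Int.eq_ofNat_of_zero_le a1
      obtain ⟨k, rfl⟩ := Int.eq_ofNat_of_zero_le a3
      obtain ⟨i, hi, rfl⟩ : ∃ n : ℕ, n ∈ [0, a] ∧ i = (n : ℤ) := by
        rcases a5 with rfl | rfl
        · exact ⟨0, by simp, by simp⟩
        · exact ⟨a, by simp, rfl⟩
      obtain ⟨e, he, h⟩ := m3 j (List.mem_range.mpr (by omega)) k (List.mem_range.mpr (by omega))
        i hi
      exact ⟨e.1, hmem e he, by rw [hF e he]; exact h⟩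

theorem checkF : Check 1 6 6 dataF := by decide +kernel

theorem checkG : Check 4 4 4 dataG := by decide +kernel

theorem coverF : CheckCover 1 6 6 dataF := by decide +kernel

theorem coverG : CheckCover 4 4 4 dataG := by decide +kernel

theorem isFolding_f : IsFolding P 1 6 6 f := by
  refine isFolding_of_check ?_ ?_ checkF coverF
  · simp only [dataF, cells, List.map_map]; rfl
  · intro e he
    obtain ⟨d, hd, rfl⟩ := List.mem_map.mp he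
    exact f_eq hd

theorem isFolding_g : IsFolding P 4 4 4 g := by
  refine isFolding_of_check ?_ ?_ checkG coverG
  · simp only [dataG, cells, List.map_map]; rfl
  · intro e he
    obtain ⟨d, hd, rfl⟩ := List.mem_map.mp he
    exact g_eq hd

/-! ## The creases -/

theorem indep_V : ∀ e ∈ data, ∀ e' ∈ data, (e.1.1 = e'.1.1 - 1 ∧ e.1.2 = e'.1.2) →
    (e.2.1.u = e'.2.1.u ∨ e.2.2.u = e'.2.2.u) := by decide +kernel

theorem indep_H : ∀ e ∈ data, ∀ e' ∈ data, (e.1.1 = e'.1.1 ∧ e.1.2 = e'.1.2 - 1) →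
    (e.2.1.v = e'.2.1.v ∨ e.2.2.v = e'.2.2.v) := by decide +kernel

theorem independent : Independent P f g := by
  intro x y
  constructor
  · rintro ⟨⟨h1, h2, h3⟩, ⟨_, _, h4⟩⟩
    obtain ⟨e, he, k1⟩ := exists_data h1
    obtain ⟨e', he', k2⟩ := exists_data h2
    rw [← k1, ← k2, f_eq he, f_eq he'] at h3
    rw [← k1, ← k2, g_eq he, g_eq he'] at h4
    rcases indep_V e he e' he' (by rw [k1, k2]; exact ⟨rfl, rfl⟩) with h | h
    · exact h3 h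
    · exact h4 h
  · rintro ⟨⟨h1, h2, h3⟩, ⟨_, _, h4⟩⟩
    obtain ⟨e, he, k1⟩ := exists_data h1
    obtain ⟨e', he', k2⟩ := exists_data h2
    rw [← k1, ← k2, f_eq he, f_eq he'] at h3
    rw [← k1, ← k2, g_eq he, g_eq he'] at h4
    rcases indep_H e he e' he' (by rw [k1, k2]; exact ⟨rfl, rfl⟩) with h | h
    · exact h3 h
    · exact h4 h

theorem noncross : ∀ e1 ∈ data, ∀ e2 ∈ data, (e1.1.1 = e2.1.1 - 1 ∧ e1.1.2 = e2.1.2) →
    ∀ e3 ∈ data, (e3.1.1 = e1.1.1 ∧ e1.1.2 = e3.1.2 - 1) →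
    ∀ e4 ∈ data, (e4.1.1 = e2.1.1 ∧ e4.1.2 = e3.1.2) →
    (e1.2.1.v = e3.2.1.v ∨ e2.2.1.v = e4.2.1.v ∨ e1.2.2.u = e2.2.2.u ∨ e3.2.2.u = e4.2.2.u) ∧
    (e1.2.2.v = e3.2.2.v ∨ e2.2.2.v = e4.2.2.v ∨ e1.2.1.u = e2.2.1.u ∨ e3.2.1.u = e4.2.1.u) := by
  decide +kernel

theorem nonCrossing : NonCrossing P f g := by
  intro x y
  constructor
  · rintro ⟨⟨⟨h1, h3, c1⟩, ⟨h2, h4, c2⟩⟩, ⟨⟨_, _, c3⟩, ⟨_, _, c4⟩⟩⟩
    obtain ⟨e1, he1, k1⟩ := exists_data h1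
    obtain ⟨e2, he2, k2⟩ := exists_data h2
    obtain ⟨e3, he3, k3⟩ := exists_data h3
    obtain ⟨e4, he4, k4⟩ := exists_data h4
    rw [← k1, ← k3, f_eq he1, f_eq he3] at c1
    rw [← k2, ← k4, f_eq he2, f_eq he4] at c2
    rw [← k1, ← k2, g_eq he1, g_eq he2] at c3
    rw [← k3, ← k4, g_eq he3, g_eq he4] at c4
    rcases (noncross e1 he1 e2 he2 (by rw [k1, k2]; exact ⟨rfl, rfl⟩) e3 he3
      (by rw [k1, k3]; exact ⟨rfl, rfl⟩) e4 he4 (by rw [k2, k3, k4]; exact ⟨rfl, rfl⟩)).1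
      with h | h | h | h
    · exact c1 h
    · exact c2 h
    · exact c3 h
    · exact c4 h
  · rintro ⟨⟨⟨h1, h2, c3⟩, ⟨h3, h4, c4⟩⟩, ⟨⟨_, _, c1⟩, ⟨_, _, c2⟩⟩⟩
    obtain ⟨e1, he1, k1⟩ := exists_data h1
    obtain ⟨e2, he2, k2⟩ := exists_data h2
    obtain ⟨e3, he3, k3⟩ := exists_data h3
    obtain ⟨e4, he4, k4⟩ := exists_data h4
    rw [← k1, ← k3, g_eq he1, g_eq he3] at c1
    rw [← k2, ← k4, g_eq he2, g_eq he4] at c2
    rw [← k1, ← k2, f_eq he1, f_eq he2] at c3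
    rw [← k3, ← k4, f_eq he3, f_eq he4] at c4
    rcases (noncross e1 he1 e2 he2 (by rw [k1, k2]; exact ⟨rfl, rfl⟩) e3 he3
      (by rw [k1, k3]; exact ⟨rfl, rfl⟩) e4 he4 (by rw [k2, k3, k4]; exact ⟨rfl, rfl⟩)).2
      with h | h | h | h
    · exact c1 h
    · exact c2 h
    · exact c3 h
    · exact c4 h

/-! ## The net is a simply connected polyomino -/

/-- Reachability by edge-connected paths in `S`. -/
abbrev Reach (S : Set Cell) : Cell → Cell → Prop :=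
  Relation.ReflTransGen (fun c d => c ∈ S ∧ d ∈ S ∧ Adjacent c d)

theorem Adjacent.symm {c d : Cell} (h : Adjacent c d) : Adjacent d c := by
  unfold Adjacent at *; omega

theorem Reach.symm {S : Set Cell} {c d : Cell} (h : Reach S c d) : Reach S d c := by
  induction h with
  | refl => exact Relation.ReflTransGen.refl
  | tail _ h ih => exact Relation.ReflTransGen.head ⟨h.2.1, h.1, h.2.2.symm⟩ ih

theorem reach_of_okOrder {S : Set Cell} (c0 : Cell) :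
    ∀ (rest seen : List Cell), (∀ c ∈ seen, c ∈ S ∧ Reach S c0 c) → (∀ c ∈ rest, c ∈ S) →
      okOrder seen rest = true → ∀ c ∈ rest, Reach S c0 c := by
  intro rest
  induction rest with
  | nil => intro _ _ _ _ c hc; simp at hc
  | cons a t ih =>
    intro seen h1 h2 h3 c hc
    rw [okOrder, Bool.and_eq_true, List.any_eq_true] at h3
    obtain ⟨⟨d, hd, had⟩, h4⟩ := h3
    have had' : Adjacent d a := of_decide_eq_true had
    have ha : Reach S c0 a :=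
      Relation.ReflTransGen.tail (h1 d hd).2 ⟨(h1 d hd).1, h2 a List.mem_cons_self, had'⟩
    rcases List.mem_cons.mp hc with rfl | hc'
    · exact ha
    · refine ih (a :: seen) ?_ (fun c hc => h2 c (List.mem_cons_of_mem _ hc)) h4 c hc'
      intro c hc
      rcases List.mem_cons.mp hc with rfl | hc''
      · exact ⟨h2 _ List.mem_cons_self, ha⟩
      · exact h1 c hc''

theorem ok_cells : okOrder [(0, 4)] (cells.tail) = true := by decide +kernel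

theorem ok_outside : okOrder [(-1, -1)] (outside.tail) = true := by decide +kernel

theorem cells_eq : cells = (0, 4) :: cells.tail := by decide +kernel

theorem outside_eq : outside = (-1, -1) :: outside.tail := by decide +kernel

theorem reach_cells : ∀ c ∈ (P : Set Cell), Reach (P : Set Cell) (0, 4) c := by
  intro c hc
  have hc' : c ∈ cells := mem_P.mp hc
  have h0 : ((0, 4) : Cell) ∈ (P : Set Cell) := by
    show ((0, 4) : Cell) ∈ P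
    rw [mem_P, cells_eq]; exact List.mem_cons_self
  rw [cells_eq] at hc'
  rcases List.mem_cons.mp hc' with rfl | hc''
  · exact Relation.ReflTransGen.refl
  · refine reach_of_okOrder (0, 4) cells.tail [(0, 4)] ?_ ?_ ok_cells c hc''
    · intro d hd
      rw [List.mem_singleton] at hd
      subst hd
      exact ⟨h0, Relation.ReflTransGen.refl⟩
    · intro d hd
      show d ∈ P
      rw [mem_P]; exact List.mem_of_mem_tail hd

theorem edgeConnected_P : EdgeConnected (P : Set Cell) := fun c hc d hd =>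
  Relation.ReflTransGen.trans (Reach.symm (reach_cells c hc)) (reach_cells d hd)

theorem bounds : ∀ e ∈ cells, 0 ≤ e.1 ∧ e.1 ≤ 15 ∧ 0 ≤ e.2 ∧ e.2 ≤ 15 := by decide +kernel

theorem disj : ∀ e ∈ outside, e ∉ cells := by decide +kernel

theorem box_cover : ∀ x ∈ List.range 16, ∀ y ∈ List.range 16,
    (((x : ℤ), (y : ℤ)) : Cell) ∈ cells ∨ (((x : ℤ), (y : ℤ)) : Cell) ∈ outside := by
  decide +kernel

theorem reach_row {S : Set Cell} (y : ℤ) (h : ∀ x : ℤ, (x, y) ∈ S) (x x' : ℤ) :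
    Reach S (x, y) (x', y) := by
  have key : ∀ (n : ℕ) (x : ℤ), Reach S (x, y) (x + n, y) := by
    intro n
    induction n with
    | zero => intro x; simpa using Relation.ReflTransGen.refl
    | succ n ih =>
      intro x
      refine Relation.ReflTransGen.tail (ih x) ⟨h _, h _, ?_⟩
      unfold Adjacent; push_cast; omega
  rcases le_total x x' with hx | hx
  · have := key (x' - x).toNat x
    rwa [Int.toNat_of_nonneg (by omega), add_sub_cancel] at this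
  · have := key (x - x').toNat x'
    rw [Int.toNat_of_nonneg (by omega), add_sub_cancel] at this
    exact this.symm

theorem reach_col {S : Set Cell} (x : ℤ) (h : ∀ y : ℤ, (x, y) ∈ S) (y y' : ℤ) :
    Reach S (x, y) (x, y') := by
  have key : ∀ (n : ℕ) (y : ℤ), Reach S (x, y) (x, y + n) := by
    intro n
    induction n with
    | zero => intro y; simpa using Relation.ReflTransGen.refl
    | succ n ih =>
      intro y
      refine Relation.ReflTransGen.tail (ih y) ⟨h _, h _, ?_⟩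
      unfold Adjacent; push_cast; omega
  rcases le_total y y' with hx | hx
  · have := key (y' - y).toNat y
    rwa [Int.toNat_of_nonneg (by omega), add_sub_cancel] at this
  · have := key (y - y').toNat y'
    rw [Int.toNat_of_nonneg (by omega), add_sub_cancel] at this
    exact this.symm

theorem row_free {y : ℤ} (hy : y < 0 ∨ 15 < y) (x : ℤ) : (x, y) ∈ {c : Cell | c ∉ P} := by
  intro h
  have := bounds _ (mem_P.mp h)
  simp only at this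
  omega

theorem col_free {x : ℤ} (hx : x < 0 ∨ 15 < x) (y : ℤ) : (x, y) ∈ {c : Cell | c ∉ P} := by
  intro h
  have := bounds _ (mem_P.mp h)
  simp only at this
  omega

theorem reach_outside : ∀ c ∈ {c : Cell | c ∉ P}, Reach {c : Cell | c ∉ P} (-1, -1) c := by
  rintro ⟨x, y⟩ hc
  by_cases hy : y < 0 ∨ 15 < y
  · exact Relation.ReflTransGen.trans (reach_col (-1) (col_free (by norm_num)) (-1) y)
      (reach_row y (row_free hy) (-1) x)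
  by_cases hx : x < 0 ∨ 15 < x
  · exact Relation.ReflTransGen.trans (reach_row (-1) (row_free (by norm_num)) (-1) x)
      (reach_col x (col_free hx) (-1) y)
  have hc' : ((x, y) : Cell) ∈ outside := by
    obtain ⟨m, rfl⟩ := Int.eq_ofNat_of_zero_le (show 0 ≤ x by omega)
    obtain ⟨n, rfl⟩ := Int.eq_ofNat_of_zero_le (show 0 ≤ y by omega)
    rcases box_cover m (List.mem_range.mpr (by omega)) n (List.mem_range.mpr (by omega)) with h | h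
    · exact absurd (mem_P.mpr h) hc
    · exact h
  rw [outside_eq] at hc'
  have hS : ∀ d ∈ outside, d ∈ {c : Cell | c ∉ P} := fun d hd h => disj d hd (mem_P.mp h)
  rcases List.mem_cons.mp hc' with h | h
  · rw [h]
  · refine reach_of_okOrder (-1, -1) outside.tail [(-1, -1)] ?_ ?_ ok_outside _ h
    · intro d hd
      rw [List.mem_singleton] at hd
      subst hd
      exact ⟨row_free (by norm_num) _, Relation.ReflTransGen.refl⟩
    · intro d hd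
      exact hS d (List.mem_of_mem_tail hd)

theorem edgeConnected_compl : EdgeConnected {c : Cell | c ∉ P} := fun c hc d hd =>
  Relation.ReflTransGen.trans (Reach.symm (reach_outside c hc)) (reach_outside d hd)

theorem pinch1 : ∀ c ∈ cells, ((c.1 + 1, c.2 + 1) : Cell) ∈ cells →
    ((c.1 + 1, c.2) : Cell) ∈ cells ∨ ((c.1, c.2 + 1) : Cell) ∈ cells := by decide +kernel

theorem pinch2 : ∀ c ∈ cells, ((c.1 - 1, c.2 + 1) : Cell) ∈ cells →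
    ((c.1 - 1, c.2) : Cell) ∈ cells ∨ ((c.1, c.2 + 1) : Cell) ∈ cells := by decide +kernel

theorem isPolyomino_P : IsPolyomino P := by
  refine ⟨⟨(0, 4), ?_⟩, edgeConnected_P, ?_, ?_, edgeConnected_compl⟩
  · rw [mem_P, cells_eq]; exact List.mem_cons_self
  · intro x y h1 h2
    rw [mem_P] at *
    rcases pinch1 _ h1 h2 with h | h
    · exact Or.inl h
    · exact Or.inr (mem_P.mpr h)
  · intro x y h1 h2
    rw [mem_P] at *
    have h2' : (((x + 1 : ℤ) - 1, y + 1) : Cell) ∈ cells := by rwa [add_sub_cancel_right]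
    rcases pinch2 _ h1 h2' with h | h
    · left; simpa using h
    · right; exact mem_P.mpr h

/-- There are a simply connected polyomino and two different boxes onto which it folds in such a way
that no unit edge is a crease of both foldings and the creases of the two foldings do not cross. -/
theorem result : ∃ (P : Finset Cell) (a b c a' b' c' : ℕ) (f g : Cell → Placement),
    0 < a ∧ 0 < b ∧ 0 < c ∧ 0 < a' ∧ 0 < b' ∧ 0 < c' ∧
    ({a, b, c} : Multiset ℕ) ≠ {a', b', c'} ∧ IsPolyomino P ∧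
    IsFolding P a b c f ∧ IsFolding P a' b' c' g ∧ Independent P f g ∧ NonCrossing P f g :=
  ⟨P, 1, 6, 6, 4, 4, 4, f, g, by norm_num, by norm_num, by norm_num, by norm_num, by norm_num,
    by norm_num, by decide, isPolyomino_P, isFolding_f, isFolding_g, independent, nonCrossing⟩

end Pool.Agent.Results.MP_40ce5a_co.IndependentCreases
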